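import Pool.Agent.helper41.HFE.SpecK

/-!
# Project HFE (MP_3221a1_ag), block K, row RLK: a curve which is better than the rows is BgX (adaptation of REL, helper61)
-/

set_option autoImplicit false

open Polynomial Module Pool.Agent.HFN

namespace Pool.Agent.HFE

noncomputable section

/-- the excess of a row without points of the curve -/
def RLK_E (i m : ℕ) : ℕ := if 2 * m ≤ i then 0 else if m ≤ i then 1 else 2

theorem RLK_E1 (i m : ℕ) : (i + 1) * RLK_E i m ≤ 2 * m := by
  unfold RLK_E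
  split_ifs with h1 h2
  · omega
  · omega
  · omega

theorem RLK_E2 (i m : ℕ) (h : RLK_E i m ≠ 0) : (i - 1) * RLK_E i m ≤ 2 * (m - 1) := by
  unfold RLK_E at h ⊢
  split_ifs at h ⊢ with h1 h2
  · exact absurd rfl h
  · omega
  · omega

/-- the contribution of a row -/
theorem RLK_c (i m D e c : ℕ) (he : e ≤ 2) (hD : D ≤ 1) (hc : c = if e = 0 then 2 * D else if e = 1 then 2 * m + D else 3 * m) :
    c ≤ 2 * D + i * e + max (2 * m - (i + 1)) (3 * m - 2 * (i + 1)) + (1 - D) * RLK_E i m := by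
  have h1 : 2 * m - (i + 1) ≤ max (2 * m - (i + 1)) (3 * m - 2 * (i + 1)) := le_max_left _ _
  have h2 : 3 * m - 2 * (i + 1) ≤ max (2 * m - (i + 1)) (3 * m - 2 * (i + 1)) := le_max_right _ _
  set A := max (2 * m - (i + 1)) (3 * m - 2 * (i + 1)) with hA
  unfold RLK_E
  rcases Nat.le_one_iff_eq_zero_or_eq_one.1 hD with h0 | h0
  · subst h0
    rw [Nat.sub_zero, one_mul]
    interval_cases e
    · simp at hc
      omega
    · simp at hc
      split_ifs <;> omega
    · simp at hc
      split_ifs <;> omega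
  · subst h0
    rw [Nat.sub_self, zero_mul]
    interval_cases e
    · simp at hc
      omega
    · simp at hc
      omega
    · simp at hc
      omega

/-- the value at one point -/
theorem RLK_ph (d e : ℕ) (hd : d ≤ 1) (he : e ≤ 2) : ph (min 2 (d + e)) = if e = 0 then 2 * d else if e = 1 then 2 + d else 3 := by
  interval_cases d <;> interval_cases e <;> rfl

theorem RLK_chi (i j b : ℕ) (h : b ≤ j + 1) : chi i j 1 b = (j + 1) + i * b := by
  unfold chi
  obtain ⟨c, hc⟩ := Nat.exists_eq_add_of_le h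
  have e1 : j + 1 - b = c := by omega
  have e2 : i + 1 - 1 = i := by omega
  rw [e1, e2, hc]
  have e3 : (i + 1) * (b + c) = i * c + (b + c + i * b) := by ring
  rw [e3]
  omega

theorem RLK (hLAP : LAP_stmt) (hSMO : SMO_stmt) (hHIT : HIT_stmt) (hROM : ROM_stmt) (hODM : ODM_stmt) : RLK_stmt := by
  classical
  intro κ Z g f i j hκ hg hgx hgy hf hfx hU hdeg hlt
  obtain ⟨hU1, hU2, hU3, hU4, hU5⟩ := hU
  obtain ⟨e, he2, heod, hesum⟩ := hROM f hf hfx
  -- the indicator
  let δ : ℂ × ℂ → ℕ := fun z => if ev z g = 0 then 1 else 0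
  have hδ1 : ∀ z, δ z ≤ 1 := by
    intro z
    change (if ev z g = 0 then 1 else 0) ≤ 1
    split_ifs <;> omega
  have hod : ∀ z, od g z = δ z := by
    intro z
    unfold od
    rw [if_neg (hSMO g z hg (Or.inl hgx) (by omega) hgy)]
  have hLa : La Z (g * f) = ∑ z ∈ Z, ph (min 2 (δ z + e z.2)) := by
    rw [hLAP]
    refine Finset.sum_congr rfl fun z _ => ?_
    rw [hODM, hod, heod]
  let Y : Finset ℂ := Z.image Prod.snd
  let D : ℂ → ℕ := fun y => ∑ z ∈ Z.filter (fun z => z.2 = y), δ z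
  have hY : ∀ z ∈ Z, z.2 ∈ Y := fun z hz => Finset.mem_image_of_mem _ hz
  have hmr : ∀ y, mr Z y = (Z.filter fun z => z.2 = y).card := fun y => rfl
  have hDnn : ∑ y ∈ Y, D y = nn Z g := by
    have h1 : ∑ y ∈ Y, D y = ∑ z ∈ Z, δ z := Finset.sum_fiberwise_of_maps_to hY δ
    rw [h1]
    unfold nn
    rw [Finset.card_filter]
  have hmrsum : ∑ y ∈ Y, mr Z y = Z.card := by
    rw [Finset.card_eq_sum_card_fiberwise (f := Prod.snd) (s := Z) (t := Y) hY]
    rfl
  have hDc : ∀ y, D y = ((Z.filter fun z => z.2 = y).filter fun z => ev z g = 0).card := by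
    intro y
    rw [Finset.card_filter]
  have hD1 : ∀ y, D y ≤ 1 := by
    intro y
    rw [hDc y, ← hgx]
    have h1 := (hHIT g hg (by omega) hgy).2 y (((Z.filter fun z => z.2 = y).filter fun z => ev z g = 0).image Prod.fst) (by
      intro x hx
      obtain ⟨z, hz, rfl⟩ := Finset.mem_image.1 hx
      rw [Finset.mem_filter, Finset.mem_filter] at hz
      have e1 : (z.1, y) = z := Prod.ext rfl hz.1.2.symm
      rw [e1]
      exact hz.2)
    rwa [Finset.card_image_of_injOn (by
      intro z hz z' hz' h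
      rw [Finset.mem_coe, Finset.mem_filter, Finset.mem_filter] at hz hz'
      exact Prod.ext h (hz.1.2.trans hz'.1.2.symm))] at h1
  have hDm : ∀ y, D y ≤ mr Z y := by
    intro y
    rw [hDc y, hmr]
    exact Finset.card_filter_le _ _
  -- the contribution of the rows
  let c : ℂ → ℕ := fun y => ∑ z ∈ Z.filter (fun z => z.2 = y), ph (min 2 (δ z + e z.2))
  have hcsum : ∑ y ∈ Y, c y = La Z (g * f) := by
    rw [hLa]
    exact Finset.sum_fiberwise_of_maps_to hY _
  have hc : ∀ y, c y = if e y = 0 then 2 * D y else if e y = 1 then 2 * mr Z y + D y else 3 * mr Z y := by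
    intro y
    have h1 : c y = ∑ z ∈ Z.filter (fun z => z.2 = y), (if e y = 0 then 2 * δ z else if e y = 1 then 2 + δ z else 3) := by
      refine Finset.sum_congr rfl fun z hz => ?_
      rw [(Finset.mem_filter.1 hz).2, RLK_ph _ _ (hδ1 z) (he2 y)]
    rw [h1]
    by_cases h2 : e y = 0
    · simp only [if_pos h2]
      rw [← Finset.mul_sum]
    · simp only [if_neg h2]
      by_cases h3 : e y = 1
      · simp only [if_pos h3]
        rw [Finset.sum_add_distrib, Finset.sum_const, smul_eq_mul, hmr, mul_comm]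
      · simp only [if_neg h3]
        rw [Finset.sum_const, smul_eq_mul, hmr, mul_comm]
  obtain ⟨s, hs⟩ : ∃ s, s = ∑ y ∈ Y, (1 - D y) * RLK_E i (mr Z y) := ⟨_, rfl⟩
  have hup : La Z (g * f) ≤ 2 * nn Z g + i * dY f + Aa Z i + s := by
    rw [← hcsum]
    calc ∑ y ∈ Y, c y ≤ ∑ y ∈ Y, (2 * D y + i * e y + max (2 * mr Z y - (i + 1)) (3 * mr Z y - 2 * (i + 1)) + (1 - D y) * RLK_E i (mr Z y)) :=
          Finset.sum_le_sum fun y _ => RLK_c i (mr Z y) (D y) (e y) (c y) (he2 y) (hD1 y) (hc y)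
      _ = 2 * nn Z g + i * ∑ y ∈ Y, e y + Aa Z i + s := by
          rw [Finset.sum_add_distrib, Finset.sum_add_distrib, Finset.sum_add_distrib, ← Finset.mul_sum, ← Finset.mul_sum, hDnn, hs]
          rfl
      _ ≤ _ := by
          have := Nat.mul_le_mul_left i (hesum Y)
          omega
  rw [RLK_chi i j _ hdeg] at hlt
  have hkey : Z.card + 3 + i * (dY g - 1) ≤ 2 * nn Z g + s := by
    obtain ⟨b, hb⟩ : ∃ b, dY g = b + 1 := ⟨dY g - 1, by omega⟩
    rw [hb] at hlt ⊢
    have e1 : i * (b + 1 + dY f) = i * b + i + i * dY f := by ring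
    rw [e1] at hlt
    rw [Nat.add_sub_cancel]
    omega
  have hsle : (i + 1) * s + 2 * nn Z g ≤ 2 * Z.card := by
    rw [hs, ← hDnn, ← hmrsum, Finset.mul_sum, Finset.mul_sum, Finset.mul_sum, ← Finset.sum_add_distrib]
    refine Finset.sum_le_sum fun y _ => ?_
    have h1 := RLK_E1 i (mr Z y)
    have h2 := hDm y
    rcases Nat.le_one_iff_eq_zero_or_eq_one.1 (hD1 y) with h0 | h0
    · rw [h0, Nat.sub_zero, one_mul]
      omega
    · rw [h0, Nat.sub_self, zero_mul, mul_zero]
      omega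
  refine ⟨hg, hgx, hgy, i, s, Y.filter (fun y => D y = 0 ∧ RLK_E i (mr Z y) ≠ 0), hU1, ?_, hkey, ?_, ?_⟩
  · obtain ⟨b, hb⟩ : ∃ b, b = dY g := ⟨_, rfl⟩
    rw [← hb] at hlt ⊢
    have e1 : i * (b + dY f) = i * b + i * dY f := by ring
    rw [e1] at hlt
    have e2 : (i + 1) * s = i * s + s := by ring
    rw [e2] at hsle
    have h1 : i * (s + b) < i * κ := by
      have e3 : i * (s + b) = i * s + i * b := by ring
      have e4 : κ * i = i * κ := Nat.mul_comm _ _
      rw [e3]
      rw [e4] at hU4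
      omega
    have h2 := lt_of_mul_lt_mul_left h1 (Nat.zero_le i)
    omega
  · intro y hy z hz hzy h5
    rw [Finset.mem_filter] at hy
    have h4 := hy.2.1
    rw [hDc y, Finset.card_eq_zero] at h4
    have h6 : z ∈ (Z.filter fun z => z.2 = y).filter fun z => ev z g = 0 := by
      rw [Finset.mem_filter, Finset.mem_filter]
      exact ⟨⟨hz, hzy⟩, h5⟩
    rw [h4] at h6
    exact absurd h6 (Finset.notMem_empty _)
  · rw [hs, Finset.mul_sum, Finset.mul_sum, Finset.sum_filter]
    refine Finset.sum_le_sum fun y _ => ?_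
    split_ifs with h1
    · rw [h1.1, Nat.sub_zero, one_mul]
      exact RLK_E2 i (mr Z y) h1.2
    · have h2 : (1 - D y) * RLK_E i (mr Z y) = 0 := by
        rcases Nat.le_one_iff_eq_zero_or_eq_one.1 (hD1 y) with h0 | h0
        · have h3 : RLK_E i (mr Z y) = 0 := by
            by_contra h3
            exact h1 ⟨h0, h3⟩
          rw [h3, mul_zero]
        · rw [h0, Nat.sub_self, zero_mul]
      rw [h2, mul_zero]

end

end Pool.Agent.HFE
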